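import Mathlib

/-!
# Binomial linear relations for coloured Gaussian cycle models: a disproof

We exhibit a coloured 6-cycle, with a single vertex colour and two edge colours and without any
nontrivial symmetry, such that `x_{15} - x_{24}` vanishes on the reciprocal variety.
-/

namespace Pool.Agent.Results.MP_c04d7c_ag.Disproof

open MvPolynomial

/-- A coloured graph on the vertex set `{0, ..., m-1}`: a simple graph together with a colour
for every vertex and a colour for every edge. The vertex colour classes are the fibres of `vcol`,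
the edge colour classes are the fibres of the restriction of `ecol` to the edges (the values of
`ecol` outside the edge set are never used). -/
structure ColouredGraph (m : ℕ) where
  /-- the underlying simple graph -/
  graph : SimpleGraph (Fin m)
  /-- the colour of a vertex -/
  vcol : Fin m → ℕ
  /-- the colour of an edge -/
  ecol : Sym2 (Fin m) → ℕ

variable {m : ℕ}

/-- `G` is a coloured `m`-cycle: its underlying graph is isomorphic to the cycle `C_m`. -/
def ColouredGraph.IsCycle (G : ColouredGraph m) : Prop :=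
  Nonempty (G.graph ≃g SimpleGraph.cycleGraph m)

/-- The space `L_G` of real symmetric matrices `K` with `K i j = 0` for distinct non-adjacent
`i, j`, with `K i i = K j j` whenever `i, j` have the same colour and with `K i j = K k l`
whenever the edges `ij` and `kl` have the same colour. -/
def ColouredGraph.linSpace (G : ColouredGraph m) : Submodule ℝ (Matrix (Fin m) (Fin m) ℝ) where
  carrier := {K | (∀ i j, K i j = K j i) ∧
    (∀ i j, i ≠ j → ¬ G.graph.Adj i j → K i j = 0) ∧
    (∀ i j, G.vcol i = G.vcol j → K i i = K j j) ∧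
    (∀ i j k l, G.graph.Adj i j → G.graph.Adj k l →
      G.ecol s(i, j) = G.ecol s(k, l) → K i j = K k l)}
  add_mem' := by
    rintro A B ⟨a1, a2, a3, a4⟩ ⟨b1, b2, b3, b4⟩
    refine ⟨fun i j => ?_, fun i j h h' => ?_, fun i j h => ?_, fun i j k l h h' h'' => ?_⟩
    · simp [a1 i j, b1 i j]
    · simp [a2 i j h h', b2 i j h h']
    · simp [a3 i j h, b3 i j h]
    · simp [a4 i j k l h h' h'', b4 i j k l h h' h'']
  zero_mem' := by simp
  smul_mem' := by
    rintro c A ⟨a1, a2, a3, a4⟩
    refine ⟨fun i j => ?_, fun i j h h' => ?_, fun i j h => ?_, fun i j k l h h' h'' => ?_⟩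
    · simp [a1 i j]
    · simp [a2 i j h h']
    · simp [a3 i j h]
    · simp [a4 i j k l h h' h'']

/-- The reciprocal set `L⁻¹ = {K⁻¹ : K ∈ L invertible}`, a point of the space of symmetric
matrices being recorded by its coordinates `x s(i, j)`, `s(i, j)` an unordered pair of
(not necessarily distinct) vertices. -/
def ColouredGraph.reciprocal (G : ColouredGraph m) : Set (Sym2 (Fin m) → ℝ) :=
  {x | ∃ K ∈ G.linSpace, IsUnit K ∧ ∀ i j, x s(i, j) = K⁻¹ i j}

/-- The vanishing ideal `I(L⁻¹)` in the polynomial ring `ℝ[x_{ij} : i ≤ j]`. -/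
noncomputable def ColouredGraph.ideal (G : ColouredGraph m) :
    Ideal (MvPolynomial (Sym2 (Fin m)) ℝ) :=
  vanishingIdeal ℝ G.reciprocal

/-- A symmetry of `G`: a permutation of the vertices which is a graph automorphism and preserves
the colour of every vertex and the colour of every edge. -/
def ColouredGraph.IsSymmetry (G : ColouredGraph m) (σ : Equiv.Perm (Fin m)) : Prop :=
  (∀ i j, G.graph.Adj (σ i) (σ j) ↔ G.graph.Adj i j) ∧
  (∀ i, G.vcol (σ i) = G.vcol i) ∧
  (∀ i j, G.graph.Adj i j → G.ecol s(σ i, σ j) = G.ecol s(i, j))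

/-- The linear forms induced by symmetries: the real span of all `x_{ij} - x_{σ(i)σ(j)}`. -/
noncomputable def ColouredGraph.inducedForms (G : ColouredGraph m) :
    Submodule ℝ (MvPolynomial (Sym2 (Fin m)) ℝ) :=
  Submodule.span ℝ {f | ∃ σ, G.IsSymmetry σ ∧ ∃ i j, f = X s(i, j) - X s(σ i, σ j)}

/-- A weak symmetry of `G`: a permutation of the vertices which is a graph automorphism and maps
vertex colour classes to vertex colour classes and edge colour classes to edge colour classes,
but which is allowed to permute the colour classes. Every symmetry is a weak symmetry. -/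
def ColouredGraph.IsWeakSymmetry (G : ColouredGraph m) (σ : Equiv.Perm (Fin m)) : Prop :=
  (∀ i j, G.graph.Adj (σ i) (σ j) ↔ G.graph.Adj i j) ∧
  (∀ i j, G.vcol (σ i) = G.vcol (σ j) ↔ G.vcol i = G.vcol j) ∧
  (∀ i j k l, G.graph.Adj i j → G.graph.Adj k l →
    (G.ecol s(σ i, σ j) = G.ecol s(σ k, σ l) ↔ G.ecol s(i, j) = G.ecol s(k, l)))

/-- The real span of all `x_{ij} - x_{σ(i)σ(j)}`, `σ` a weak symmetry. -/
noncomputable def ColouredGraph.weaklyInducedForms (G : ColouredGraph m) :
    Submodule ℝ (MvPolynomial (Sym2 (Fin m)) ℝ) :=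
  Submodule.span ℝ {f | ∃ σ, G.IsWeakSymmetry σ ∧ ∃ i j, f = X s(i, j) - X s(σ i, σ j)}

/-- A binomial linear form: a linear form with exactly two nonzero coefficients. -/
def IsBinomialLinearForm (f : MvPolynomial (Sym2 (Fin m)) ℝ) : Prop :=
  f.IsHomogeneous 1 ∧ f.support.card = 2

/-- The counterexample: the 6-cycle `0 - 1 - 2 - 3 - 4 - 5 - 0` with one vertex colour; the edges
`01`, `12`, `34` have colour `0` and the edges `23`, `45`, `50` have colour `1`. -/
def G6 : ColouredGraph 6 where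
  graph := SimpleGraph.cycleGraph 6
  vcol := fun _ => 0
  ecol := fun e => if e = s(0, 1) ∨ e = s(1, 2) ∨ e = s(3, 4) then 0 else 1

lemma G6_isCycle : G6.IsCycle := ⟨SimpleGraph.Iso.refl⟩

lemma form_of_mem {K : Matrix (Fin 6) (Fin 6) ℝ} (hK : K ∈ G6.linSpace) :
    ∃ a b c : ℝ, K = !![a, b, 0, 0, 0, c; b, a, b, 0, 0, 0; 0, b, a, c, 0, 0;
      0, 0, c, a, b, 0; 0, 0, 0, b, a, c; c, 0, 0, 0, c, a] := by
  obtain ⟨h1, h2, h3, h4⟩ := hK
  have adj : ∀ i j : Fin 6, (i - j = 1 ∨ j - i = 1) → G6.graph.Adj i j := fun i j h => h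
  have nadj : ∀ i j : Fin 6, ¬ (i - j = 1 ∨ j - i = 1) → ¬ G6.graph.Adj i j := fun i j h => h
  have hd : ∀ i, K i i = K 0 0 := fun i => h3 i 0 rfl
  have e12 : K 1 2 = K 0 1 := h4 1 2 0 1 (adj _ _ (by decide)) (adj _ _ (by decide)) (by decide)
  have e34 : K 3 4 = K 0 1 := h4 3 4 0 1 (adj _ _ (by decide)) (adj _ _ (by decide)) (by decide)
  have e23 : K 2 3 = K 0 5 := h4 2 3 0 5 (adj _ _ (by decide)) (adj _ _ (by decide)) (by decide)
  have e45 : K 4 5 = K 0 5 := h4 4 5 0 5 (adj _ _ (by decide)) (adj _ _ (by decide)) (by decide)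
  have z : ∀ i j : Fin 6, i ≠ j → ¬ (i - j = 1 ∨ j - i = 1) → K i j = 0 :=
    fun i j h h' => h2 i j h (nadj i j h')
  have z02 := z 0 2 (by decide) (by decide)
  have z03 := z 0 3 (by decide) (by decide)
  have z04 := z 0 4 (by decide) (by decide)
  have z13 := z 1 3 (by decide) (by decide)
  have z14 := z 1 4 (by decide) (by decide)
  have z15 := z 1 5 (by decide) (by decide)
  have z24 := z 2 4 (by decide) (by decide)
  have z25 := z 2 5 (by decide) (by decide)
  have z35 := z 3 5 (by decide) (by decide)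
  refine ⟨K 0 0, K 0 1, K 0 5, ?_⟩
  ext i j
  fin_cases i <;> fin_cases j <;> simp <;> first
    | rfl
    | assumption
    | exact hd _
    | (rw [h1]; assumption)
    | (rw [h1])

lemma adjugate_eq (a b c : ℝ) :
    (!![a, b, 0, 0, 0, c; b, a, b, 0, 0, 0; 0, b, a, c, 0, 0;
      0, 0, c, a, b, 0; 0, 0, 0, b, a, c; c, 0, 0, 0, c, a] : Matrix (Fin 6) (Fin 6) ℝ).adjugate
        1 5 =
    (!![a, b, 0, 0, 0, c; b, a, b, 0, 0, 0; 0, b, a, c, 0, 0;
      0, 0, c, a, b, 0; 0, 0, 0, b, a, c; c, 0, 0, 0, c, a] : Matrix (Fin 6) (Fin 6) ℝ).adjugate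
        2 4 := by
  rw [Matrix.adjugate_fin_succ_eq_det_submatrix, Matrix.adjugate_fin_succ_eq_det_submatrix]
  simp [Matrix.det_succ_row_zero, Fin.sum_univ_succ, Fin.succAbove]
  ring

/-- The binomial linear form `x_{15} - x_{24}` vanishes on the reciprocal set of `G6`. -/
lemma form_mem_ideal :
    (X s(1, 5) - X s(2, 4) : MvPolynomial (Sym2 (Fin 6)) ℝ) ∈ G6.ideal := by
  rw [ColouredGraph.ideal, mem_vanishingIdeal_iff]
  rintro x ⟨K, hK, -, hx⟩
  obtain ⟨a, b, c, rfl⟩ := form_of_mem hK
  rw [map_sub, aeval_X, aeval_X, hx, hx, Matrix.inv_def]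
  simp only [Matrix.smul_apply]
  rw [adjugate_eq, sub_self]

lemma pair_ne : (s(1, 5) : Sym2 (Fin 6)) ≠ s(2, 4) := by decide

lemma form_isBinomial :
    IsBinomialLinearForm (X s(1, 5) - X s(2, 4) : MvPolynomial (Sym2 (Fin 6)) ℝ) := by
  refine ⟨(isHomogeneous_X _ _).sub (isHomogeneous_X _ _), ?_⟩
  have hne : (Finsupp.single (s(1, 5) : Sym2 (Fin 6)) 1 : Sym2 (Fin 6) →₀ ℕ) ≠
      Finsupp.single (s(2, 4) : Sym2 (Fin 6)) 1 := by
    intro h
    exact pair_ne (Finsupp.single_left_injective one_ne_zero h)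
  have : (X s(1, 5) - X s(2, 4) : MvPolynomial (Sym2 (Fin 6)) ℝ).support =
      {Finsupp.single s(1, 5) 1, Finsupp.single s(2, 4) 1} := by
    ext u
    simp only [mem_support_iff, coeff_sub, coeff_X, Finset.mem_insert, Finset.mem_singleton]
    by_cases h1 : Finsupp.single s(1, 5) 1 = u
    · subst h1
      simp [hne.symm]
    · by_cases h2 : Finsupp.single s(2, 4) 1 = u
      · subst h2
        simp [hne]
      · simp [h1, h2, Ne.symm h1, Ne.symm h2]
  rw [this, Finset.card_pair hne]

lemma ColouredGraph.IsSymmetry.isWeakSymmetry {G : ColouredGraph m} {σ : Equiv.Perm (Fin m)}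
    (h : G.IsSymmetry σ) : G.IsWeakSymmetry σ := by
  obtain ⟨h1, h2, h3⟩ := h
  exact ⟨h1, fun i j => by rw [h2, h2], fun i j k l hij hkl => by rw [h3 i j hij, h3 k l hkl]⟩

/-- The reflection `i ↦ -i` of the 6-cycle. -/
def refl6 : Equiv.Perm (Fin 6) := Equiv.neg (Fin 6)

/-- The only weak symmetries of `G6` are the identity and the reflection `i ↦ -i`. -/
lemma weakSymmetry_cases (σ : Equiv.Perm (Fin 6)) (h : G6.IsWeakSymmetry σ) :
    σ = 1 ∨ σ = refl6 := by
  have key : ∀ σ : Equiv.Perm (Fin 6), σ ≠ 1 → σ ≠ refl6 →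
      (∃ i : Fin 6, ¬ (σ i - σ (i + 1) = 1 ∨ σ (i + 1) - σ i = 1)) ∨
      ∃ i k : Fin 6,
        ¬ (G6.ecol s(σ i, σ (i + 1)) = G6.ecol s(σ k, σ (k + 1)) ↔
            G6.ecol s(i, i + 1) = G6.ecol s(k, k + 1)) := by
    unfold G6
    decide +kernel
  have adj : ∀ i : Fin 6, G6.graph.Adj i (i + 1) := by
    intro i
    change i - (i + 1) = 1 ∨ (i + 1) - i = 1
    right
    abel
  by_contra hne
  rw [not_or] at hne
  obtain ⟨h1, -, h3⟩ := h
  rcases key σ hne.1 hne.2 with ⟨i, hi⟩ | ⟨i, k, hik⟩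
  · exact hi ((h1 i (i + 1)).2 (adj i))
  · exact hik (h3 i (i + 1) k (k + 1) (adj i) (adj k))

/-- The coefficient of `x_{15}` vanishes on all weakly induced forms of `G6`. -/
lemma coeff_of_mem_weaklyInduced {f : MvPolynomial (Sym2 (Fin 6)) ℝ}
    (hf : f ∈ G6.weaklyInducedForms) : coeff (Finsupp.single s(1, 5) 1) f = 0 := by
  have key : ∀ i j : Fin 6, (s(1, 5) : Sym2 (Fin 6)) = s(i, j) ↔
      (s(1, 5) : Sym2 (Fin 6)) = s(refl6 i, refl6 j) := by
    decide +kernel
  refine Submodule.span_induction (p := fun f _ => coeff (Finsupp.single s(1, 5) 1) f = 0)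
    ?_ ?_ ?_ ?_ hf
  · rintro f ⟨σ, hσ, i, j, rfl⟩
    rcases weakSymmetry_cases σ hσ with rfl | rfl
    · simp
    · have inj : ∀ e : Sym2 (Fin 6), (Finsupp.single e 1 : Sym2 (Fin 6) →₀ ℕ) =
          Finsupp.single s(1, 5) 1 ↔ s(1, 5) = e := by
        intro e
        rw [(Finsupp.single_left_injective one_ne_zero).eq_iff, eq_comm]
      rw [coeff_sub, coeff_X, coeff_X]
      simp only [inj]
      by_cases h : (s(1, 5) : Sym2 (Fin 6)) = s(i, j)
      · rw [if_pos h, if_pos ((key i j).1 h), sub_self]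
      · rw [if_neg h, if_neg (fun h' => h ((key i j).2 h')), sub_self]
  · simp
  · intro f g _ _ hf hg
    rw [coeff_add, hf, hg, add_zero]
  · intro a f _ hf
    rw [coeff_smul, hf, smul_zero]

lemma inducedForms_le (G : ColouredGraph m) : G.inducedForms ≤ G.weaklyInducedForms := by
  refine Submodule.span_mono ?_
  rintro f ⟨σ, hσ, h⟩
  exact ⟨σ, hσ.isWeakSymmetry, h⟩

/-- **Disproof of Q1.** There is a coloured 6-cycle `G` (all of whose vertices even have the same
colour) such that the vanishing ideal of the reciprocal set contains a linear form with exactly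
two nonzero coefficients which is not in the span of the forms `x_{ij} - x_{σ(i)σ(j)}`, `σ` a
symmetry of `G`; it is not even in the span of these forms with `σ` allowed to permute the colour
classes. -/
theorem result : ∃ G : ColouredGraph 6, G.IsCycle ∧ (∀ i j, G.vcol i = G.vcol j) ∧
    ∃ f ∈ G.ideal, IsBinomialLinearForm f ∧ f ∉ G.inducedForms ∧ f ∉ G.weaklyInducedForms := by
  have hw : (X s(1, 5) - X s(2, 4) : MvPolynomial (Sym2 (Fin 6)) ℝ) ∉ G6.weaklyInducedForms := by
    intro hmem
    have h := coeff_of_mem_weaklyInduced hmem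
    have hne : ¬ (Finsupp.single (s(2, 4) : Sym2 (Fin 6)) 1 : Sym2 (Fin 6) →₀ ℕ) =
        Finsupp.single (s(1, 5) : Sym2 (Fin 6)) 1 := by
      intro h
      exact pair_ne (Finsupp.single_left_injective one_ne_zero h).symm
    rw [coeff_sub, coeff_X, coeff_X, if_pos rfl, if_neg hne, sub_zero] at h
    exact one_ne_zero h
  exact ⟨G6, G6_isCycle, fun _ _ => rfl, _, form_mem_ideal, form_isBinomial,
    fun hmem => hw (inducedForms_le G6 hmem), hw⟩

end Pool.Agent.Results.MP_c04d7c_ag.Disproof
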